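import Pool.Agent.MWFE.StmtsA

/-!
# MWFE, row SQP (MP_23468a_al): powers with exponents at least two commute
-/

set_option autoImplicit false

namespace Pool.Agent.MWFE.H27

open Pool.Agent.Helper14_MV Pool.Agent.Helper2_MV Pool.Agent.MVD
open Pool.Agent.MWE (Can XX fxy dxy dx dy up cp L4 pr Xs xl isx Fs nd nr)
open Pool.Agent.MWGR (cb)

theorem ctx {β : FIC} (P Q : List ℕ) {x y : List ℕ} (h : RR β x y) :
    RR β (P ++ (x ++ Q)) (P ++ (y ++ Q)) :=
  (RR.refl P).append (h.append (RR.refl Q))

theorem rep_cons (s u : ℕ) (w : List ℕ) :
    List.replicate s u ++ u :: w = u :: (List.replicate s u ++ w) := by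
  induction s with
  | zero => rfl
  | succ s ih =>
    rw [List.replicate_succ, List.cons_append, ih, List.cons_append]

theorem rep_succ (s u : ℕ) (w : List ℕ) :
    List.replicate (s + 1) u ++ w = List.replicate s u ++ u :: w := by
  rw [rep_cons, List.replicate_succ, List.cons_append]

theorem rep_add (a b u : ℕ) :
    List.replicate (a + b) u = List.replicate a u ++ List.replicate b u :=
  (List.replicate_append_replicate).symm

/-- `v` moves to the left over `u^s` -/
theorem movL (hl : LcfStmt) {β : FIC} (ff : FF β) (zz : ZZ β) (u v : ℕ) (g r : List ℕ)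
    (hv : v ∈ g) (hu : u ∈ g) : ∀ (s : ℕ) (p q : List ℕ),
    (∀ d ∈ g, 2 ≤ (p ++ (List.replicate s u ++ v :: (q ++ (g ++ r)))).count d) →
    RR β (p ++ (List.replicate s u ++ v :: (q ++ (g ++ r))))
      (p ++ v :: (List.replicate s u ++ (q ++ (g ++ r)))) := by
  intro s
  induction s with
  | zero =>
    intro p q _
    exact RR.refl _
  | succ s ih =>
    intro p q hm
    have h1 : RR β ((p ++ List.replicate s u) ++ u :: v :: (q ++ (g ++ r)))
        ((p ++ List.replicate s u) ++ v :: u :: (q ++ (g ++ r))) := by
      refine (hl β ff zz (p ++ List.replicate s u) q g r u v hu hv).1 ?_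
      intro d hd
      have := hm d hd
      simp only [List.count_append, List.count_cons, List.replicate_succ, List.cons_append] at this ⊢
      omega
    have h2 := ih p (u :: q) (by
      intro d hd
      have := hm d hd
      simp only [List.count_append, List.count_cons, List.replicate_succ, List.cons_append] at this ⊢
      omega)
    have e1 : (p ++ List.replicate s u) ++ u :: v :: (q ++ (g ++ r)) =
        p ++ (List.replicate (s + 1) u ++ v :: (q ++ (g ++ r))) := by
      rw [rep_succ, List.append_assoc]
    have e2 : (p ++ List.replicate s u) ++ v :: u :: (q ++ (g ++ r)) =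
        p ++ (List.replicate s u ++ v :: ((u :: q) ++ (g ++ r))) := by
      rw [List.append_assoc, List.cons_append]
    have e3 : p ++ v :: (List.replicate s u ++ ((u :: q) ++ (g ++ r))) =
        p ++ v :: (List.replicate (s + 1) u ++ (q ++ (g ++ r))) := by
      rw [rep_succ, List.cons_append]
    rw [e1, e2] at h1
    rw [e3] at h2
    exact β.trans h1 h2

/-- `v` moves to the right over `u^s` -/
theorem movR (hl : LcfStmt) {β : FIC} (ff : FF β) (zz : ZZ β) (u v : ℕ) (p g : List ℕ)
    (hv : v ∈ g) (hu : u ∈ g) : ∀ (s : ℕ) (q r : List ℕ),
    (∀ d ∈ g, 2 ≤ (p ++ (g ++ (q ++ v :: (List.replicate s u ++ r)))).count d) →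
    RR β (p ++ (g ++ (q ++ v :: (List.replicate s u ++ r))))
      (p ++ (g ++ (q ++ (List.replicate s u ++ v :: r)))) := by
  intro s
  induction s with
  | zero =>
    intro q r _
    exact RR.refl _
  | succ s ih =>
    intro q r hm
    have h1 : RR β (p ++ (g ++ (q ++ v :: u :: (List.replicate s u ++ r))))
        (p ++ (g ++ (q ++ u :: v :: (List.replicate s u ++ r)))) := by
      refine (hl β ff zz p q g (List.replicate s u ++ r) v u hv hu).2 ?_
      intro d hd
      have := hm d hd
      simp only [List.count_append, List.count_cons, List.replicate_succ, List.cons_append] at this ⊢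
      omega
    have h2 := ih (q ++ [u]) r (by
      intro d hd
      have := hm d hd
      simp only [List.count_append, List.count_cons, List.replicate_succ, List.cons_append,
        List.count_nil] at this ⊢
      omega)
    have e1 : v :: u :: (List.replicate s u ++ r) = v :: (List.replicate (s + 1) u ++ r) := by
      rw [List.replicate_succ, List.cons_append]
    have e2 : (q ++ [u]) ++ v :: (List.replicate s u ++ r) =
        q ++ u :: v :: (List.replicate s u ++ r) := by simp
    have e3 : (q ++ [u]) ++ (List.replicate s u ++ v :: r) =
        q ++ (List.replicate (s + 1) u ++ v :: r) := by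
      rw [List.replicate_succ, List.cons_append, List.append_assoc, List.singleton_append]
    rw [e1] at h1
    rw [e2, e3] at h2
    exact β.trans h1 h2

theorem r0_sub {β : FIC} (h : R0 β) (u v : ℕ) : RR β [u, u, v, v] [v, v, u, u] := by
  have := RR.sub (fun i => if i = 0 then [u] else [v]) h
  simpa using this

/-- one letter `v` crosses the whole power -/
theorem step3 (hl : LcfStmt) {β : FIC} (ff : FF β) (zz : ZZ β) (u v M c d : ℕ) (hM : 2 ≤ M)
    (huv : u ≠ v) :
    RR β (List.replicate (c + 2) v ++ (List.replicate M u ++ List.replicate (d + 1) v))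
      (List.replicate (c + 1) v ++ (List.replicate M u ++ List.replicate (d + 2) v)) := by
  obtain ⟨m, rfl⟩ : ∃ m, M = m + 2 := ⟨M - 2, by omega⟩
  have hvu : v ≠ u := Ne.symm huv
  -- the first crossing
  have h1 : RR β (List.replicate (c + 1) v ++ v :: u :: ([] ++ ((List.replicate (m + 1) u ++ [v]) ++
      List.replicate d v)))
      (List.replicate (c + 1) v ++ u :: v :: ([] ++ ((List.replicate (m + 1) u ++ [v]) ++
      List.replicate d v))) := by
    refine (hl β ff zz (List.replicate (c + 1) v) [] (List.replicate (m + 1) u ++ [v])
      (List.replicate d v) v u (by simp) (by simp)).1 ?_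
    intro x hx
    have hx' : x = u ∨ x = v := by
      rcases List.mem_append.mp hx with h | h
      · exact Or.inl (List.eq_of_mem_replicate h)
      · exact Or.inr (List.mem_singleton.mp h)
    rcases hx' with rfl | rfl
    · simp [List.count_append, List.count_replicate, huv, hvu]
    · simp [List.count_append, List.count_replicate, huv, hvu]
      omega
  have h2 : RR β ([] ++ ((List.replicate (c + 1) v ++ [u]) ++ ([] ++ v :: (List.replicate (m + 1) u ++
      List.replicate (d + 1) v))))
      ([] ++ ((List.replicate (c + 1) v ++ [u]) ++ ([] ++ (List.replicate (m + 1) u ++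
      v :: List.replicate (d + 1) v)))) := by
    refine movR hl ff zz u v [] (List.replicate (c + 1) v ++ [u]) (by simp) (by simp) (m + 1) []
      (List.replicate (d + 1) v) ?_
    intro x hx
    have hx' : x = v ∨ x = u := by
      rcases List.mem_append.mp hx with h | h
      · exact Or.inl (List.eq_of_mem_replicate h)
      · exact Or.inr (List.mem_singleton.mp h)
    rcases hx' with rfl | rfl
    · simp [List.count_append, List.count_replicate, huv, hvu]
      try omega
    · simp [List.count_append, List.count_replicate, huv, hvu]
      try omega
  have e1 : List.replicate (c + 1) v ++ v :: u :: ([] ++ ((List.replicate (m + 1) u ++ [v]) ++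
      List.replicate d v)) =
      List.replicate (c + 2) v ++ (List.replicate (m + 2) u ++ List.replicate (d + 1) v) := by
    simp only [List.replicate_succ, List.cons_append, List.append_assoc, rep_cons,
      List.nil_append]
  have e2 : List.replicate (c + 1) v ++ u :: v :: ([] ++ ((List.replicate (m + 1) u ++ [v]) ++
      List.replicate d v)) =
      [] ++ ((List.replicate (c + 1) v ++ [u]) ++ ([] ++ v :: (List.replicate (m + 1) u ++
      List.replicate (d + 1) v))) := by
    simp only [List.replicate_succ, List.cons_append, List.append_assoc, List.nil_append]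
  have e3 : [] ++ ((List.replicate (c + 1) v ++ [u]) ++ ([] ++ (List.replicate (m + 1) u ++
      v :: List.replicate (d + 1) v))) =
      List.replicate (c + 1) v ++ (List.replicate (m + 2) u ++ List.replicate (d + 2) v) := by
    simp only [List.replicate_succ, List.cons_append, List.append_assoc, List.nil_append]
  rw [e1, e2] at h1
  rw [e3] at h2
  exact β.trans h1 h2

/-- all but one letter `v` cross the whole power -/
theorem step3' (hl : LcfStmt) {β : FIC} (ff : FF β) (zz : ZZ β) (u v M : ℕ) (hM : 2 ≤ M)
    (huv : u ≠ v) : ∀ c d : ℕ,
    RR β (List.replicate (c + 1) v ++ (List.replicate M u ++ List.replicate (d + 1) v))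
      ([v] ++ (List.replicate M u ++ List.replicate (c + d + 1) v)) := by
  intro c
  induction c with
  | zero =>
    intro d
    rw [Nat.zero_add, Nat.zero_add]
    exact RR.refl _
  | succ c ih =>
    intro d
    have h1 := step3 hl ff zz u v M c d hM huv
    have h2 := ih (d + 1)
    have e : c + (d + 1) + 1 = c + 1 + d + 1 := by omega
    rw [e] at h2
    exact β.trans h1 h2

/-- part (1) -/
theorem step1 (hl : LcfStmt) {n : ℕ} {β : FIC} (hz : Hz n β) (u v a b : ℕ) (huv : u ≠ v) :
    RR β (List.replicate (a + 3) u ++ List.replicate (b + 2) v)
      ([v] ++ (List.replicate (a + 3 + n) u ++ List.replicate (b + 1) v)) := by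
  have hvu : v ≠ u := Ne.symm huv
  have hn := hz.n2
  have s1 : RR β (List.replicate (a + 1) u ++ ([u, u, v, v] ++ List.replicate b v))
      (List.replicate (a + 1) u ++ ([v, v, u, u] ++ List.replicate b v)) :=
    ctx _ _ (r0_sub hz.r0 u v)
  have s2 : RR β (List.replicate a u ++ u :: ([v] ++ ([v] ++ u :: (u :: List.replicate b v))))
      (List.replicate a u ++ u :: ([v] ++ (List.replicate n u ++
        ([v] ++ u :: (u :: List.replicate b v))))) := by
    refine hz.it (List.replicate a u) [v] [v] (u :: List.replicate b v) u ?_
    intro d hd
    have hd' : d = v := by simpa using hd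
    subst hd'
    simp [List.count_append, List.count_replicate, huv, hvu]
  have s3 : RR β ([] ++ (List.replicate (a + 1) u ++ v :: ([] ++ ((List.replicate n u ++ [v]) ++
      (u :: u :: List.replicate b v)))))
      ([] ++ v :: (List.replicate (a + 1) u ++ ([] ++ ((List.replicate n u ++ [v]) ++
      (u :: u :: List.replicate b v))))) := by
    refine movL hl hz.ff hz.zz u v (List.replicate n u ++ [v]) (u :: u :: List.replicate b v)
      (by simp) (by simp; omega) (a + 1) [] [] ?_
    intro x hx
    have hx' : x = u ∨ x = v := by
      rcases List.mem_append.mp hx with h | h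
      · exact Or.inl (List.eq_of_mem_replicate h)
      · exact Or.inr (List.mem_singleton.mp h)
    rcases hx' with rfl | rfl
    · simp [List.count_append, List.count_replicate, huv, hvu]
      try omega
    · simp [List.count_append, List.count_replicate, huv, hvu]
      try omega
  have s4 : RR β ([] ++ ((v :: (List.replicate (a + 1) u ++ List.replicate n u)) ++
      ([] ++ v :: (List.replicate 2 u ++ List.replicate b v))))
      ([] ++ ((v :: (List.replicate (a + 1) u ++ List.replicate n u)) ++
      ([] ++ (List.replicate 2 u ++ v :: List.replicate b v)))) := by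
    refine movR hl hz.ff hz.zz u v [] (v :: (List.replicate (a + 1) u ++ List.replicate n u))
      (by simp) (by simp) 2 [] (List.replicate b v) ?_
    intro x hx
    have hx' : x = v ∨ x = u := by
      rcases List.mem_cons.mp hx with h | h
      · exact Or.inl h
      · rcases List.mem_append.mp h with h | h
        · exact Or.inr (List.eq_of_mem_replicate h)
        · exact Or.inr (List.eq_of_mem_replicate h)
    rcases hx' with rfl | rfl
    · simp [List.count_append, List.count_replicate, huv, hvu]
      try omega
    · simp [List.count_append, List.count_replicate, huv, hvu]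
      try omega
  have e0 : List.replicate (a + 1) u ++ ([u, u, v, v] ++ List.replicate b v) =
      List.replicate (a + 3) u ++ List.replicate (b + 2) v := by
    simp only [List.replicate_succ, List.cons_append, List.append_assoc, rep_cons,
      List.nil_append]
  have e1 : List.replicate (a + 1) u ++ ([v, v, u, u] ++ List.replicate b v) =
      List.replicate a u ++ u :: ([v] ++ ([v] ++ u :: (u :: List.replicate b v))) := by
    simp only [List.replicate_succ, List.cons_append, rep_cons, List.nil_append]
  have e2 : List.replicate a u ++ u :: ([v] ++ (List.replicate n u ++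
        ([v] ++ u :: (u :: List.replicate b v)))) =
      [] ++ (List.replicate (a + 1) u ++ v :: ([] ++ ((List.replicate n u ++ [v]) ++
      (u :: u :: List.replicate b v)))) := by
    simp only [List.replicate_succ, List.cons_append, List.append_assoc, rep_cons,
      List.nil_append]
  have e3 : [] ++ v :: (List.replicate (a + 1) u ++ ([] ++ ((List.replicate n u ++ [v]) ++
      (u :: u :: List.replicate b v)))) =
      [] ++ ((v :: (List.replicate (a + 1) u ++ List.replicate n u)) ++
      ([] ++ v :: (List.replicate 2 u ++ List.replicate b v))) := by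
    simp only [List.replicate_succ, List.cons_append, List.append_assoc, List.nil_append,
      List.replicate_zero]
  have e4 : [] ++ ((v :: (List.replicate (a + 1) u ++ List.replicate n u)) ++
      ([] ++ (List.replicate 2 u ++ v :: List.replicate b v))) =
      [v] ++ (List.replicate (a + 3 + n) u ++ List.replicate (b + 1) v) := by
    have : a + 3 + n = (a + 1) + n + 2 := by omega
    rw [this, rep_add ((a + 1) + n) 2 u, rep_add (a + 1) n u]
    simp only [List.replicate_succ, List.cons_append, List.append_assoc, List.nil_append]
  rw [e0, e1] at s1
  rw [e2] at s2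
  rw [e3] at s3
  rw [e4] at s4
  exact β.trans s1 (β.trans s2 (β.trans s3 s4))

/-- part (2) -/
theorem step2 (hl : LcfStmt) {n : ℕ} {β : FIC} (hz : Hz n β) (u v a b : ℕ) (huv : u ≠ v) :
    RR β (List.replicate (b + 2) v ++ List.replicate (a + 3) u)
      (List.replicate (b + 1) v ++ (List.replicate (a + 3 + n) u ++ [v])) := by
  have hvu : v ≠ u := Ne.symm huv
  have hn := hz.n2
  have s1 : RR β (List.replicate b v ++ ([v, v, u, u] ++ List.replicate (a + 1) u))
      (List.replicate b v ++ ([u, u, v, v] ++ List.replicate (a + 1) u)) :=
    ctx _ _ (r0_sub hz.r0 u v).symm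
  have s2 : RR β ((List.replicate b v ++ [u]) ++ u :: ([v] ++ ([v] ++ u :: List.replicate a u)))
      ((List.replicate b v ++ [u]) ++ u :: ([v] ++ (List.replicate n u ++
        ([v] ++ u :: List.replicate a u)))) := by
    refine hz.it (List.replicate b v ++ [u]) [v] [v] (List.replicate a u) u ?_
    intro d hd
    have hd' : d = v := by simpa using hd
    subst hd'
    simp [List.count_append, List.count_replicate, huv, hvu]
  have s3 : RR β ((List.replicate b v ++ [u, u]) ++ ((v :: List.replicate n u) ++ ([] ++
      v :: (List.replicate (a + 1) u ++ []))))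
      ((List.replicate b v ++ [u, u]) ++ ((v :: List.replicate n u) ++ ([] ++
      (List.replicate (a + 1) u ++ v :: [])))) := by
    refine movR hl hz.ff hz.zz u v (List.replicate b v ++ [u, u]) (v :: List.replicate n u)
      (by simp) (by simp; omega) (a + 1) [] [] ?_
    intro x hx
    have hx' : x = v ∨ x = u := by
      rcases List.mem_cons.mp hx with h | h
      · exact Or.inl h
      · exact Or.inr (List.eq_of_mem_replicate h)
    rcases hx' with rfl | rfl
    · simp [List.count_append, List.count_replicate, huv, hvu]
      try omega
    · simp [List.count_append, List.count_replicate, huv, hvu]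
      try omega
  have s4 : RR β (List.replicate b v ++ (List.replicate 2 u ++ v :: ([] ++
      ((List.replicate n u ++ (List.replicate (a + 1) u ++ [v])) ++ []))))
      (List.replicate b v ++ v :: (List.replicate 2 u ++ ([] ++
      ((List.replicate n u ++ (List.replicate (a + 1) u ++ [v])) ++ [])))) := by
    refine movL hl hz.ff hz.zz u v (List.replicate n u ++ (List.replicate (a + 1) u ++ [v])) []
      (by simp) (by simp) 2 (List.replicate b v) [] ?_
    intro x hx
    have hx' : x = u ∨ x = v := by
      rcases List.mem_append.mp hx with h | h
      · exact Or.inl (List.eq_of_mem_replicate h)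
      · rcases List.mem_append.mp h with h | h
        · exact Or.inl (List.eq_of_mem_replicate h)
        · exact Or.inr (List.mem_singleton.mp h)
    rcases hx' with rfl | rfl
    · simp [List.count_append, List.count_replicate, huv, hvu]
      try omega
    · simp [List.count_append, List.count_replicate, huv, hvu]
      try omega
  have e0 : List.replicate b v ++ ([v, v, u, u] ++ List.replicate (a + 1) u) =
      List.replicate (b + 2) v ++ List.replicate (a + 3) u := by
    simp only [List.replicate_succ, List.cons_append, rep_cons, List.nil_append]
  have e1 : List.replicate b v ++ ([u, u, v, v] ++ List.replicate (a + 1) u) =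
      (List.replicate b v ++ [u]) ++ u :: ([v] ++ ([v] ++ u :: List.replicate a u)) := by
    simp only [List.replicate_succ, List.cons_append, List.append_assoc, List.nil_append]
  have e2 : (List.replicate b v ++ [u]) ++ u :: ([v] ++ (List.replicate n u ++
        ([v] ++ u :: List.replicate a u))) =
      (List.replicate b v ++ [u, u]) ++ ((v :: List.replicate n u) ++ ([] ++
      v :: (List.replicate (a + 1) u ++ []))) := by
    simp only [List.replicate_succ, List.cons_append, List.append_assoc, List.nil_append,
      List.append_nil]
  have e3 : (List.replicate b v ++ [u, u]) ++ ((v :: List.replicate n u) ++ ([] ++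
      (List.replicate (a + 1) u ++ v :: []))) =
      List.replicate b v ++ (List.replicate 2 u ++ v :: ([] ++
      ((List.replicate n u ++ (List.replicate (a + 1) u ++ [v])) ++ []))) := by
    simp only [List.replicate_succ, List.cons_append, List.append_assoc, List.nil_append,
      List.append_nil, List.replicate_zero]
  have e4 : List.replicate b v ++ v :: (List.replicate 2 u ++ ([] ++
      ((List.replicate n u ++ (List.replicate (a + 1) u ++ [v])) ++ []))) =
      List.replicate (b + 1) v ++ (List.replicate (a + 3 + n) u ++ [v]) := by
    have : a + 3 + n = 2 + (n + (a + 1)) := by omega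
    rw [this, rep_add 2 (n + (a + 1)) u, rep_add n (a + 1) u]
    simp only [List.replicate_succ, List.cons_append, List.append_assoc, List.nil_append,
      List.append_nil, rep_cons]
  rw [e0, e1] at s1
  rw [e2] at s2
  rw [e3] at s3
  rw [e4] at s4
  exact β.trans s1 (β.trans s2 (β.trans s3 s4))

theorem big (hl : LcfStmt) {n : ℕ} {β : FIC} (hz : Hz n β) (u v a b : ℕ) (huv : u ≠ v) :
    RR β (List.replicate (a + 3) u ++ List.replicate (b + 2) v)
      (List.replicate (b + 2) v ++ List.replicate (a + 3) u) := by
  have h1 := step1 hl hz u v a b huv
  have h2 := step2 hl hz u v a b huv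
  have h3 := step3' hl hz.ff hz.zz u v (a + 3 + n) (by omega) huv b 0
  have e : List.replicate (0 + 1) v = [v] := rfl
  rw [e, Nat.add_zero] at h3
  exact β.trans h1 (β.trans h3.symm h2.symm)

/-- **SQP** -/
theorem sqp (hl : LcfStmt) (_hp : PwlStmt) : SqpStmt := by
  intro n β hz u v i j hi hj
  by_cases huv : u = v
  · subst huv
    rw [List.replicate_append_replicate, List.replicate_append_replicate, Nat.add_comm]
    exact RR.refl _
  rcases Nat.lt_or_ge i 3 with h | h
  · have hi2 : i = 2 := by omega
    subst hi2
    rcases Nat.lt_or_ge j 3 with h' | h'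
    · have hj2 : j = 2 := by omega
      subst hj2
      exact r0_sub hz.r0 u v
    · obtain ⟨c, rfl⟩ : ∃ c, j = c + 3 := ⟨j - 3, by omega⟩
      exact (big hl hz v u c 0 (Ne.symm huv)).symm
  · obtain ⟨a, rfl⟩ : ∃ a, i = a + 3 := ⟨i - 3, by omega⟩
    obtain ⟨b, rfl⟩ : ∃ b, j = b + 2 := ⟨j - 2, by omega⟩
    exact big hl hz u v a b huv

end Pool.Agent.MWFE.H27
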